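import Mathlib
import Pool.Agent.Q209.Bus.Max

open MeasureTheory ProbabilityTheory Filter Topology
open scoped ENNReal
open Pool.Agent.Q209

namespace Pool.Agent.Results.MP_d01e83_pr.NoScalingLimit

noncomputable section

/-- Linear interpolation of `𝓜` between consecutive integers. -/
def interp (ω : ℕ → ℕ → ℝ) (t : ℝ) : ℝ :=
  (Bus.maxG ω ⌊t⌋₊ : ℝ) + (t - ⌊t⌋₊) * ((Bus.maxG ω (⌊t⌋₊ + 1) : ℝ) - Bus.maxG ω ⌊t⌋₊)

/-- The laws of the random elements `X m` of the topological space `E` converge weakly (to some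
Borel probability measure on `E`). -/
def LawsConverge {Ω E : Type} [MeasurableSpace Ω] [TopologicalSpace E] (P : Measure Ω)
    (X : ℕ → Ω → E) : Prop :=
  ∃ ρ : @Measure E (borel E), @IsProbabilityMeasure E (borel E) ρ ∧
    ∀ F : BoundedContinuousFunction E ℝ,
      Tendsto (fun m => ∫ ω, F (X m ω) ∂P) atTop (𝓝 (@integral E ℝ _ _ (borel E) ρ F))

/-- The path space: continuous functions on `(0, ∞)` (with the compact-open topology, that is
uniform convergence on compact sets). -/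
abbrev Path : Type := C(Set.Ioi (0 : ℝ), ℝ)

theorem interp_nat (ω : ℕ → ℕ → ℝ) (k : ℕ) : interp ω k = Bus.maxG ω k := by
  simp [interp]

theorem interp_mono (ω : ℕ → ℕ → ℝ) {s t : ℝ} (hs : 1 ≤ s) (hst : s ≤ t) :
    interp ω s ≤ interp ω t := by
  have hs0 : 0 ≤ s := by linarith
  have ht0 : 0 ≤ t := by linarith
  have h1 : 1 ≤ ⌊s⌋₊ := Nat.one_le_floor_iff _ |>.mpr hs
  have h2 : ⌊s⌋₊ ≤ ⌊t⌋₊ := Nat.floor_mono hst
  have a1 := Nat.floor_le hs0
  have a2 := Nat.lt_floor_add_one s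
  have b1 := Nat.floor_le ht0
  have b2 := Nat.lt_floor_add_one t
  have hms : (Bus.maxG ω ⌊s⌋₊ : ℝ) ≤ Bus.maxG ω (⌊s⌋₊ + 1) := by
    exact_mod_cast Bus.maxG_mono ω h1 (by omega)
  have hmt : (Bus.maxG ω ⌊t⌋₊ : ℝ) ≤ Bus.maxG ω (⌊t⌋₊ + 1) := by
    exact_mod_cast Bus.maxG_mono ω (h1.trans h2) (by omega)
  rcases eq_or_lt_of_le h2 with h3 | h3
  · unfold interp
    rw [← h3]
    nlinarith
  · have h4 : (Bus.maxG ω (⌊s⌋₊ + 1) : ℝ) ≤ Bus.maxG ω ⌊t⌋₊ := by
      exact_mod_cast Bus.maxG_mono ω (by omega) (by omega)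
    unfold interp
    nlinarith

theorem interp_measurable (t : ℝ) : Measurable fun ω => interp ω t := by
  have h : ∀ k, Measurable fun ω => (Bus.maxG ω k : ℝ) := fun k =>
    measurable_from_top.comp (Bus.maxG_measurable k)
  unfold interp
  exact (h _).add (((h _).sub (h _)).const_mul _)

theorem portmanteau {Ω E : Type} [MeasurableSpace Ω] [TopologicalSpace E] [MeasurableSpace E]
    [BorelSpace E] (P : Measure Ω) [IsProbabilityMeasure P] (X : ℕ → Ω → E) (ρ : Measure E)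
    [IsProbabilityMeasure ρ]
    (hconv : ∀ F : BoundedContinuousFunction E ℝ,
      Tendsto (fun m => ∫ ω, F (X m ω) ∂P) atTop (𝓝 (∫ f, F f ∂ρ)))
    (Φ : E → ℝ) (hΦ : Continuous Φ) (Y : ℕ → Ω → ℝ) (hY : ∀ m, Measurable (Y m))
    (hYX : ∀ m, 1 ≤ m → ∀ ω, Y m ω = Φ (X m ω)) (a : ℝ) :
    limsup (fun m => P {ω | a ≤ Y m ω}) atTop ≤ ρ {f | a ≤ Φ f} := by
  let μs : ℕ → ProbabilityMeasure ℝ := fun m =>
    ⟨P.map (Y m), Measure.isProbabilityMeasure_map (hY m).aemeasurable⟩
  let ν : ProbabilityMeasure ℝ :=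
    ⟨ρ.map Φ, Measure.isProbabilityMeasure_map hΦ.measurable.aemeasurable⟩
  have hT : Tendsto μs atTop (𝓝 ν) := by
    rw [ProbabilityMeasure.tendsto_iff_forall_integral_tendsto]
    intro G
    have h1 := hconv (G.compContinuous ⟨Φ, hΦ⟩)
    have e1 : ∫ f, (G.compContinuous ⟨Φ, hΦ⟩) f ∂ρ = ∫ y, G y ∂(ν : Measure ℝ) := by
      change ∫ f, G (Φ f) ∂ρ = ∫ y, G y ∂(ρ.map Φ)
      rw [integral_map hΦ.measurable.aemeasurable G.continuous.aestronglyMeasurable]
    rw [e1] at h1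
    refine h1.congr' ?_
    filter_upwards [eventually_ge_atTop 1] with m hm
    change ∫ ω, G (Φ (X m ω)) ∂P = ∫ y, G y ∂(P.map (Y m))
    rw [integral_map (hY m).aemeasurable G.continuous.aestronglyMeasurable]
    refine integral_congr_ae (Eventually.of_forall fun ω => ?_)
    simp only [hYX m hm ω]
  have h2 := ProbabilityMeasure.limsup_measure_closed_le_of_tendsto hT
    (isClosed_Ici (a := a))
  have e2 : ∀ m, (μs m : Measure ℝ) (Set.Ici a) = P {ω | a ≤ Y m ω} := by
    intro m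
    change (P.map (Y m)) (Set.Ici a) = _
    rw [Measure.map_apply (hY m) measurableSet_Ici]
    rfl
  have e3 : (ν : Measure ℝ) (Set.Ici a) = ρ {f | a ≤ Φ f} := by
    change (ρ.map Φ) (Set.Ici a) = _
    rw [Measure.map_apply hΦ.measurable measurableSet_Ici]
    rfl
  simp only [e2, e3] at h2
  exact h2

/-- grid points -/
def grid (r j : ℕ) : Set.Ioi (0 : ℝ) := ⟨1 + (j : ℝ) / 2 ^ r, by
  have : (0 : ℝ) ≤ (j : ℝ) / 2 ^ r := by positivity
  show (0 : ℝ) < _
  linarith⟩

/-- largest increment of a path over the grid -/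
def incr (c r : ℕ) (f : Set.Ioi (0 : ℝ) → ℝ) : ℝ :=
  (Finset.range (c * 2 ^ r + 1)).sup' (by simp) fun j => f (grid r (j + 1)) - f (grid r j)

theorem incr_continuous (c r : ℕ) : Continuous fun f : Path => incr c r f := by
  unfold incr
  refine Continuous.finset_sup'_apply _ fun j _ => ?_
  exact (continuous_eval_const _).sub (continuous_eval_const _)

/-- the rescaled process at a fixed time -/
def resc (m : ℕ) (t : ℝ) (ω : ℕ → ℕ → ℝ) : ℝ := interp ω ((m : ℝ) ^ 2 * t) / m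

/-- a macroscopic jump forces a large grid increment -/
theorem incr_ge {m c r : ℕ} (hm : 1 ≤ m) (hc : 1 ≤ c) (hr : 2 ^ r ≤ m ^ 2) (ω : ℕ → ℕ → ℝ)
    (h : ¬ ∀ k, m ^ 2 ≤ k → k < c * m ^ 2 →
      16 * c * (Bus.maxG ω (k + 1) - Bus.maxG ω k) < m) :
    1 / (32 * (c : ℝ)) ≤ incr c r (fun t => resc m t ω) := by
  push Not at h
  obtain ⟨k, hk1, hk2, hk3⟩ := h
  have hm0 : (0 : ℝ) < m := by exact_mod_cast hm
  have hc0 : (0 : ℝ) < c := by exact_mod_cast hc
  have hmm : (0 : ℝ) < (m : ℝ) ^ 2 := by positivity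
  have h2r : (0 : ℝ) < 2 ^ r := by positivity
  have h1m : 1 ≤ m ^ 2 := Nat.one_le_pow _ _ hm
  -- the jump
  have hjump : 1 / (16 * (c : ℝ)) ≤ resc m (((k : ℝ) + 1) / m ^ 2) ω - resc m ((k : ℝ) / m ^ 2) ω := by
    unfold resc
    have e1 : (m : ℝ) ^ 2 * (((k : ℝ) + 1) / m ^ 2) = ((k + 1 : ℕ) : ℝ) := by
      push_cast; field_simp
    have e2 : (m : ℝ) ^ 2 * ((k : ℝ) / m ^ 2) = (k : ℝ) := by field_simp
    rw [e1, e2, interp_nat, interp_nat, ← sub_div, le_div_iff₀ hm0]
    have hmono := Bus.maxG_mono ω (h1m.trans hk1) (show k ≤ k + 1 by omega)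
    have h3 : (m : ℝ) ≤ 16 * c * ((Bus.maxG ω (k + 1) : ℝ) - Bus.maxG ω k) := by
      have := (Nat.cast_le (α := ℝ)).mpr hk3
      rw [Nat.cast_mul, Nat.cast_sub hmono] at this
      push_cast at this
      exact this
    rw [div_mul_eq_mul_div, one_mul, div_le_iff₀ (by positivity)]
    linarith
  set u : ℝ := (k : ℝ) / m ^ 2 with hu
  set v : ℝ := ((k : ℝ) + 1) / m ^ 2 with hv
  have hu1 : 1 ≤ u := by
    rw [hu, le_div_iff₀ hmm, one_mul]; exact_mod_cast hk1
  have huc : u < c := by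
    rw [hu, div_lt_iff₀ hmm]; exact_mod_cast hk2
  have huv : v = u + 1 / m ^ 2 := by rw [hu, hv]; ring
  have hmesh : 1 / (m : ℝ) ^ 2 ≤ 1 / 2 ^ r := by
    apply one_div_le_one_div_of_le h2r
    exact_mod_cast hr
  set j : ℕ := ⌊(u - 1) * 2 ^ r⌋₊ with hj
  have hnn : 0 ≤ (u - 1) * 2 ^ r := mul_nonneg (by linarith) h2r.le
  have j1 : (j : ℝ) ≤ (u - 1) * 2 ^ r := Nat.floor_le hnn
  have j2 : (u - 1) * 2 ^ r < j + 1 := Nat.lt_floor_add_one _
  have g0 : 1 + (j : ℝ) / 2 ^ r ≤ u := by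
    have : (j : ℝ) / 2 ^ r ≤ u - 1 := by rw [div_le_iff₀ h2r]; exact j1
    linarith
  have g2 : v ≤ 1 + ((j + 2 : ℕ) : ℝ) / 2 ^ r := by
    have h3 : u - 1 < ((j : ℝ) + 1) / 2 ^ r := by rw [lt_div_iff₀ h2r]; exact j2
    have h4 : ((j + 2 : ℕ) : ℝ) / 2 ^ r = ((j : ℝ) + 1) / 2 ^ r + 1 / 2 ^ r := by
      push_cast; ring
    rw [h4, huv]
    linarith
  have hjc : j + 1 < c * 2 ^ r + 1 := by
    have h3 : (j : ℝ) < c * 2 ^ r := by
      have : (u - 1) * 2 ^ r < c * 2 ^ r := by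
        apply mul_lt_mul_of_pos_right _ h2r
        linarith
      linarith
    have h4 : j < c * 2 ^ r := by exact_mod_cast h3
    omega
  have hmono : ∀ s t : ℝ, 1 ≤ s → s ≤ t → resc m s ω ≤ resc m t ω := by
    intro s t hs hst
    unfold resc
    apply div_le_div_of_nonneg_right _ hm0.le
    apply interp_mono
    · have : (1 : ℝ) ≤ (m : ℝ) ^ 2 := by exact_mod_cast h1m
      nlinarith
    · exact mul_le_mul_of_nonneg_left hst hmm.le
  have hle : ∀ i, i < c * 2 ^ r + 1 → resc m (grid r (i + 1)) ω - resc m (grid r i) ω ≤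
      incr c r (fun t => resc m t ω) := by
    intro i hi
    exact Finset.le_sup' (fun j => resc m (grid r (j + 1)) ω - resc m (grid r j) ω)
      (Finset.mem_range.mpr hi)
  have a1 := hle j (by omega)
  have a2 := hle (j + 1) hjc
  have b1 : resc m ((grid r j : Set.Ioi (0 : ℝ)) : ℝ) ω ≤ resc m u ω := by
    apply hmono
    · show 1 ≤ 1 + (j : ℝ) / 2 ^ r
      have : 0 ≤ (j : ℝ) / 2 ^ r := by positivity
      linarith
    · exact g0
  have b2 : resc m v ω ≤ resc m ((grid r (j + 1 + 1) : Set.Ioi (0 : ℝ)) : ℝ) ω := by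
    apply hmono
    · rw [huv]
      have : 0 ≤ 1 / (m : ℝ) ^ 2 := by positivity
      linarith
    · exact g2
  have e : 1 / (16 * (c : ℝ)) = 2 * (1 / (32 * (c : ℝ))) := by
    field_simp
    norm_num
  rw [e] at hjump
  linarith

theorem interp_one_le (ω : ℕ → ℕ → ℝ) (m B : ℕ) (hm : 1 ≤ m)
    (h : B * m ≤ Bus.maxG ω (m ^ 2)) : (B : ℝ) ≤ resc m 1 ω := by
  have hm0 : (0 : ℝ) < m := by exact_mod_cast hm
  unfold resc
  have e : (m : ℝ) ^ 2 * 1 = ((m ^ 2 : ℕ) : ℝ) := by push_cast; ring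
  rw [e, interp_nat, le_div_iff₀ hm0]
  exact_mod_cast h

/-- continuous paths have small increments over fine grids -/
theorem incr_small (c : ℕ) {a : ℝ} (ha : 0 < a) (f : Path) : ∃ R : ℕ, ∀ r ≥ R, incr c r f < a := by
  -- uniform continuity on `[1, c + 2]`
  let K : Set (Set.Ioi (0 : ℝ)) := {t | (1 : ℝ) ≤ t ∧ (t : ℝ) ≤ c + 2}
  have hK : IsCompact K := by
    rw [Subtype.isCompact_iff]
    have e : (Subtype.val '' K : Set ℝ) = Set.Icc 1 ((c : ℝ) + 2) := by
      ext x
      constructor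
      · rintro ⟨t, ht, rfl⟩; exact ht
      · intro hx
        exact ⟨⟨x, by show (0 : ℝ) < x; linarith [hx.1]⟩, hx, rfl⟩
    rw [e]
    exact isCompact_Icc
  have huc := hK.uniformContinuousOn_of_continuous f.continuous.continuousOn
  rw [Metric.uniformContinuousOn_iff] at huc
  obtain ⟨δ, hδ, hd⟩ := huc a ha
  obtain ⟨R, hR⟩ := exists_pow_lt_of_lt_one hδ (show (1 / 2 : ℝ) < 1 by norm_num)
  refine ⟨R, fun r hr => ?_⟩
  rw [incr, Finset.sup'_lt_iff]
  intro j hj
  rw [Finset.mem_range] at hj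
  have h2r : (0 : ℝ) < 2 ^ r := by positivity
  have hjr : (j : ℝ) / 2 ^ r ≤ c := by
    rw [div_le_iff₀ h2r]
    have : j ≤ c * 2 ^ r := by omega
    exact_mod_cast this
  have h1r : (1 : ℝ) / 2 ^ r ≤ 1 := by
    rw [div_le_one h2r]; exact one_le_pow₀ (by norm_num)
  have hj0 : 0 ≤ (j : ℝ) / 2 ^ r := by positivity
  have hj1 : ((j + 1 : ℕ) : ℝ) / 2 ^ r = (j : ℝ) / 2 ^ r + 1 / 2 ^ r := by push_cast; ring
  have h1r0 : (0 : ℝ) < 1 / 2 ^ r := by positivity
  have m1 : grid r (j + 1) ∈ K := by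
    constructor
    · show (1 : ℝ) ≤ 1 + ((j + 1 : ℕ) : ℝ) / 2 ^ r
      rw [hj1]; linarith
    · show 1 + ((j + 1 : ℕ) : ℝ) / 2 ^ r ≤ (c : ℝ) + 2
      rw [hj1]; linarith
  have m0 : grid r j ∈ K := by
    constructor
    · show (1 : ℝ) ≤ 1 + (j : ℝ) / 2 ^ r
      linarith
    · show 1 + (j : ℝ) / 2 ^ r ≤ (c : ℝ) + 2
      linarith
  have hdist : dist (grid r (j + 1)) (grid r j) < δ := by
    rw [Subtype.dist_eq, Real.dist_eq]
    show |(1 + ((j + 1 : ℕ) : ℝ) / 2 ^ r) - (1 + (j : ℝ) / 2 ^ r)| < δ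
    rw [hj1, show (1 + ((j : ℝ) / 2 ^ r + 1 / 2 ^ r)) - (1 + (j : ℝ) / 2 ^ r) = 1 / 2 ^ r by ring,
      abs_of_pos h1r0]
    calc (1 : ℝ) / 2 ^ r = (1 / 2) ^ r := by rw [one_div_pow]
      _ ≤ (1 / 2) ^ R := pow_le_pow_of_le_one (by norm_num) (by norm_num) hr
      _ < δ := hR
  have h3 := hd _ m1 _ m0 hdist
  rw [Real.dist_eq] at h3
  exact lt_of_le_of_lt (le_abs_self _) h3

/-- The condition that the random continuous functions `X m` on `(0, ∞)` are the rescaled
processes: `X m (t) = 𝓜(m² t)/m` for all `t ≥ 1/m²` (nothing is required for `t < 1/m²`, where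
`𝓜(m² t)` is not defined). -/
def IsRescaled (X : ℕ → (ℕ → ℕ → ℝ) → Path) : Prop :=
  ∀ m : ℕ, 1 ≤ m → ∀ ω, ∀ t : Set.Ioi (0 : ℝ), 1 / (m : ℝ) ^ 2 ≤ t →
    X m ω t = interp ω ((m : ℝ) ^ 2 * t) / m

theorem interp_continuousOn (ω : ℕ → ℕ → ℝ) {t : ℝ} (ht : 0 < t) :
    ContinuousAt (interp ω) t := by
  obtain ⟨K, hK⟩ := exists_nat_gt t
  let g : ℝ → ℝ := fun s => (Bus.maxG ω 0 : ℝ) + ∑ k ∈ Finset.range K,
    max 0 (min (s - k) 1) * ((Bus.maxG ω (k + 1) : ℝ) - Bus.maxG ω k)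
  have hg : Continuous g := by
    refine continuous_const.add (continuous_finsetSum _ fun k _ => ?_)
    exact (continuous_const.max ((continuous_id.sub continuous_const).min
      continuous_const)).mul continuous_const
  have heq : ∀ s : ℝ, 0 < s → s < K → g s = interp ω s := by
    intro s hs0 hsK
    have a1 := Nat.floor_le hs0.le
    have a2 := Nat.lt_floor_add_one s
    set n := ⌊s⌋₊ with hn
    have hnK : n < K := by
      have : (n : ℝ) < K := by linarith
      exact_mod_cast this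
    have key : ∀ K', n < K' → ∑ k ∈ Finset.range K',
        max 0 (min (s - k) 1) * ((Bus.maxG ω (k + 1) : ℝ) - Bus.maxG ω k) =
        ((Bus.maxG ω n : ℝ) - Bus.maxG ω 0) + (s - n) * ((Bus.maxG ω (n + 1) : ℝ) -
          Bus.maxG ω n) := by
      intro K' hK'
      induction K', hK' using Nat.le_induction with
      | base =>
        rw [Finset.sum_range_succ]
        congr 1
        · rw [← Finset.sum_range_sub (fun k => (Bus.maxG ω k : ℝ)) n]
          refine Finset.sum_congr rfl fun k hk => ?_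
          rw [Finset.mem_range] at hk
          have : (k : ℝ) + 1 ≤ n := by exact_mod_cast hk
          rw [min_eq_right (by linarith), max_eq_right zero_le_one, one_mul]
        · rw [min_eq_left (by linarith), max_eq_right (by linarith)]
      | succ K' hK' ih =>
        rw [Finset.sum_range_succ, ih]
        have : (n : ℝ) + 1 ≤ K' := by exact_mod_cast hK'
        rw [min_eq_left (by linarith), max_eq_left (by linarith), zero_mul, add_zero]
    simp only [g]
    rw [key K hnK, interp, ← hn]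
    ring
  refine (hg.continuousAt (x := t)).congr ?_
  filter_upwards [isOpen_Ioo.mem_nhds (show t ∈ Set.Ioo 0 (K : ℝ) from ⟨ht, hK⟩)] with s hs
  exact heq s hs.1 hs.2

theorem exists_rescaled : ∃ X, IsRescaled X := by
  refine ⟨fun m ω => ⟨fun t => interp ω (max 1 ((m : ℝ) ^ 2 * t)) / m, ?_⟩, ?_⟩
  · refine Continuous.div_const ?_ _
    rw [continuous_iff_continuousAt]
    intro t
    refine ContinuousAt.comp (g := interp ω) (interp_continuousOn ω ?_) ?_
    · exact lt_of_lt_of_le one_pos (le_max_left _ _)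
    · exact (continuous_const.max (continuous_const.mul continuous_subtype_val)).continuousAt
  · intro m hm ω t ht
    have hm0 : (0 : ℝ) < (m : ℝ) ^ 2 := by
      have : (0 : ℝ) < m := by exact_mod_cast hm
      positivity
    have : (1 : ℝ) ≤ (m : ℝ) ^ 2 * t := by
      rw [div_le_iff₀ hm0] at ht
      linarith
    simp only [ContinuousMap.coe_mk, max_eq_right this]

/-- The rescaled processes exist as random continuous functions on `(0, ∞)`, and, however they are
continued to `t < 1/m²`, their laws do not converge weakly as `m → ∞`. -/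
theorem result :
    (∃ X, IsRescaled X) ∧ ∀ X, IsRescaled X → ¬ LawsConverge Bus.noise X := by
  refine ⟨exists_rescaled, fun X hX => ?_⟩
  rintro ⟨ρ, hρ, hconv⟩
  let _ : MeasurableSpace Path := borel Path
  have _ : BorelSpace Path := ⟨rfl⟩
  have hXe : ∀ m : ℕ, 1 ≤ m → ∀ ω, ∀ t : Set.Ioi (0 : ℝ), (1 : ℝ) ≤ t → X m ω t = resc m t ω := by
    intro m hm ω t ht
    apply hX m hm ω t
    have : (1 : ℝ) ≤ (m : ℝ) ^ 2 := by exact_mod_cast Nat.one_le_pow 2 m hm
    refine le_trans ?_ ht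
    rw [div_le_one (by linarith)]
    exact this
  have hresc : ∀ (m : ℕ) (t : ℝ), Measurable (resc m t) := fun m t =>
    (interp_measurable _).div_const _
  -- step 1: tightness at time one
  let e1 : Set.Ioi (0 : ℝ) := ⟨1, by show (0 : ℝ) < 1; norm_num⟩
  have hev : Continuous fun f : Path => f e1 := continuous_eval_const _
  obtain ⟨B, hB⟩ : ∃ B : ℕ, ρ {f : Path | (B : ℝ) ≤ f e1} < ENNReal.ofReal (1 / 8) := by
    have hanti : Antitone fun B : ℕ => {f : Path | (B : ℝ) ≤ f e1} := by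
      intro B B' hBB f hf
      have : (B : ℝ) ≤ B' := by exact_mod_cast hBB
      exact this.trans hf
    have hlim := tendsto_measure_iInter_atTop (μ := ρ)
      (s := fun B : ℕ => {f : Path | (B : ℝ) ≤ f e1})
      (fun B => (isClosed_le continuous_const hev).measurableSet.nullMeasurableSet) hanti
      ⟨0, measure_ne_top _ _⟩
    have hempty : (⋂ B : ℕ, {f : Path | (B : ℝ) ≤ f e1}) = ∅ := by
      ext f
      simp only [Set.mem_iInter, Set.mem_ofPred_eq, Set.mem_empty_iff_false, iff_false, not_forall,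
        not_le]
      exact exists_nat_gt _
    rw [hempty, measure_empty] at hlim
    have := hlim.eventually (gt_mem_nhds (show (0 : ℝ≥0∞) < ENNReal.ofReal (1 / 8) by
      rw [ENNReal.ofReal_pos]; norm_num))
    exact this.exists
  -- step 2
  have h2 := portmanteau Bus.noise X ρ hconv (fun f : Path => f e1) hev (fun m => resc m 1)
    (fun m => hresc m 1) (fun m hm ω => (hXe m hm ω e1 le_rfl).symm) B
  have h3 : ∀ᶠ m in atTop, Bus.noise {ω | (B : ℝ) ≤ resc m 1 ω} < ENNReal.ofReal (1 / 8) :=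
    eventually_lt_of_limsup_lt (lt_of_le_of_lt h2 hB)
  set c : ℕ := 8 * (B + 1) ^ 2 with hc
  have hc1 : 1 ≤ c := by have := Nat.one_le_pow 2 (B + 1) (by omega); omega
  -- step 3
  have h4 : ∀ᶠ m in atTop, ENNReal.ofReal (5 / 8) ≤ Bus.noise {ω | ¬ ∀ k, m ^ 2 ≤ k →
      k < c * m ^ 2 → 16 * c * (Bus.maxG ω (k + 1) - Bus.maxG ω k) < m} := by
    filter_upwards [h3, eventually_ge_atTop 1] with m hm hm1
    have h5 := Bus.jump_prob (B := B) (c := c) hm1 rfl ((measure_mono
      (fun ω hω => interp_one_le ω m B hm1 hω)).trans hm.le)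
    set A := {ω | ∀ k, m ^ 2 ≤ k → k < c * m ^ 2 →
      16 * c * (Bus.maxG ω (k + 1) - Bus.maxG ω k) < m} with hA
    have h6 : (1 : ℝ≥0∞) ≤ Bus.noise A + Bus.noise Aᶜ := by
      have h7 := measure_union_le (μ := Bus.noise) A Aᶜ
      rw [Set.union_compl_self, measure_univ] at h7
      exact h7
    have h8 : Aᶜ = {ω | ¬ ∀ k, m ^ 2 ≤ k →
        k < c * m ^ 2 → 16 * c * (Bus.maxG ω (k + 1) - Bus.maxG ω k) < m} := rfl
    rw [← h8]
    by_contra hcon
    push Not at hcon
    have h9 : Bus.noise A + Bus.noise Aᶜ < ENNReal.ofReal (3 / 8) + ENNReal.ofReal (5 / 8) :=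
      ENNReal.add_lt_add_of_le_of_lt (measure_ne_top _ _) h5 hcon
    rw [← ENNReal.ofReal_add (by norm_num) (by norm_num)] at h9
    norm_num at h9
    exact absurd (lt_of_le_of_lt h6 h9) (lt_irrefl _)
  -- step 4
  have h5 : ∀ r : ℕ, ENNReal.ofReal (5 / 8) ≤ ρ {f : Path | 1 / (32 * (c : ℝ)) ≤ incr c r f} := by
    intro r
    have hgrid1 : ∀ j, (1 : ℝ) ≤ grid r j := by
      intro j
      show (1 : ℝ) ≤ 1 + (j : ℝ) / 2 ^ r
      have : 0 ≤ (j : ℝ) / 2 ^ r := by positivity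
      linarith
    have h6 := portmanteau Bus.noise X ρ hconv (fun f : Path => incr c r f)
      (incr_continuous c r) (fun m ω => incr c r fun t => resc m t ω) (fun m => by
        unfold incr
        exact Finset.measurable_range_sup'' (n := c * 2 ^ r)
          (f := fun j ω => resc m (grid r (j + 1)) ω - resc m (grid r j) ω)
          fun j _ => (hresc m _).sub (hresc m _)) (fun m hm ω => by
        unfold incr
        refine Finset.sup'_congr _ rfl fun j _ => ?_
        rw [hXe m hm ω _ (hgrid1 _), hXe m hm ω _ (hgrid1 _)]) (1 / (32 * (c : ℝ)))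
    refine le_trans ?_ h6
    refine le_limsup_of_frequently_le ?_ (by isBoundedDefault)
    apply Eventually.frequently
    filter_upwards [h4, eventually_ge_atTop (2 ^ r)] with m hm hmr
    have hm1 : 1 ≤ m := le_trans (Nat.one_le_two_pow) hmr
    refine hm.trans (measure_mono fun ω hω => ?_)
    exact incr_ge hm1 hc1 (hmr.trans (Nat.le_self_pow (by norm_num) m)) ω hω
  -- step 5
  have hcpos : (0 : ℝ) < 1 / (32 * (c : ℝ)) := by
    have : (0 : ℝ) < c := by exact_mod_cast hc1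
    positivity
  let T : ℕ → Set Path := fun R => ⋃ r ≥ R, {f : Path | 1 / (32 * (c : ℝ)) ≤ incr c r f}
  have hTm : ∀ R, MeasurableSet (T R) := fun R => MeasurableSet.biUnion (Set.to_countable _)
    fun r _ => (isClosed_le continuous_const (incr_continuous c r)).measurableSet
  have hTa : Antitone T := by
    intro R R' hRR f hf
    simp only [T, Set.mem_iUnion] at hf ⊢
    obtain ⟨r, hr, h⟩ := hf
    exact ⟨r, le_trans hRR hr, h⟩
  have hlim := tendsto_measure_iInter_atTop (μ := ρ) (s := T)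
    (fun R => (hTm R).nullMeasurableSet) hTa ⟨0, measure_ne_top _ _⟩
  have hempty : (⋂ R, T R) = ∅ := by
    ext f
    simp only [T, Set.mem_iInter, Set.mem_iUnion, Set.mem_empty_iff_false, iff_false, not_forall]
    obtain ⟨R, hR⟩ := incr_small c hcpos f
    refine ⟨R, ?_⟩
    rintro ⟨r, hr, h⟩
    exact absurd (hR r hr) (not_lt.mpr h)
  rw [hempty, measure_empty] at hlim
  have h6 : ENNReal.ofReal (5 / 8) ≤ 0 := by
    refine ge_of_tendsto' hlim fun R => ?_
    refine (h5 R).trans (measure_mono fun f hf => ?_)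
    simp only [T, Set.mem_iUnion]
    exact ⟨R, le_rfl, hf⟩
  rw [nonpos_iff_eq_zero, ENNReal.ofReal_eq_zero] at h6
  norm_num at h6

end

end Pool.Agent.Results.MP_d01e83_pr.NoScalingLimit
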